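import Mathlib
import Pool.Agent.D0H46.SE.SumB

/-!
# Q1: the two supercongruences modulo `p^8` for sums of seventh powers of central binomials

The closed forms of `Pool.Agent.R440.D518` express the two sums as `p^4 · (p-unit) · ∑ (2k+1) Tₖ²`; the
central term is evaluated modulo `p^5`, the others modulo `p^2` with the alternating double sum
`∑_{j odd < p} j^{-3} ∑_{i ≤ j} (-1)^{i-1}/i ≡ -(1/4) q_p(2) H_{(p-1)/2}^{(3)} (mod p)`.
-/

set_option autoImplicit false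

namespace Pool.Agent.Results.MP_48d34c_nt.ModPEight

open Finset Pool.Agent.D0H46.SC

theorem of_mem {p : ℕ} [hp : Fact p.Prime] {x : ℚ} (h : x ∈ I p 8) : ¬ p ∣ (x / (p : ℚ)^8).den := by
  obtain ⟨u, hu, rfl⟩ := h
  have hp0 : (p : ℚ) ≠ 0 := by exact_mod_cast hp.out.ne_zero
  rw [mul_div_cancel_left₀ _ (pow_ne_zero _ hp0)]
  exact hu

theorem leg {p P : ℕ} [hp : Fact p.Prime] (hP : p = 2 * P + 1) : legendreSym p (-1) = (-1)^P := by
  rw [legendreSym.at_neg_one (by omega), ZMod.χ₄_eq_neg_one_pow (by omega)]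
  congr 1
  omega

/-- Q1. For every prime `p ≠ 2, 5` both congruences modulo `p^8` hold. -/
theorem result (p : ℕ) [Fact p.Prime] (h2 : p ≠ 2) (h5 : p ≠ 5) :
    ¬ p ∣ (((∑ k ∈ range p, (21 * (k : ℚ)^3 + 22 * (k : ℚ)^2 + 8 * k + 1) / 256^k * ((2 * k).choose k : ℚ)^7)
        - (p : ℚ)^3) / (p : ℚ)^8).den ∧
    ¬ p ∣ (((∑ k ∈ range ((p - 1) / 2 + 1), (168 * (k : ℚ)^3 + 76 * (k : ℚ)^2 + 14 * k + 1) / 2^(20 * k) *
        ((2 * k).choose k : ℚ)^7) - (legendreSym p (-1) : ℚ) * (p : ℚ)^3) / (p : ℚ)^8).den := by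
  have hp := (Fact.out : p.Prime)
  obtain ⟨P, hP⟩ : ∃ P, p = 2 * P + 1 := by
    rcases hp.eq_two_or_odd' with h | ⟨P, h⟩
    · exact absurd h h2
    · exact ⟨P, h⟩
  have hc1 : ∀ n : ℕ, ∑ k ∈ range n, (21 * (k : ℚ)^3 + 22 * (k : ℚ)^2 + 8 * k + 1) / 256^k * ((2 * k).choose k : ℚ)^7 =
      ∑ k ∈ range n, (21 * (k : ℚ)^3 + 22 * k^2 + 8 * k + 1) * ((2 * k).choose k : ℚ)^7 / 256^k := by
    intro n
    apply sum_congr rfl
    intro k _
    ring
  have hc2 : ∀ n : ℕ, ∑ k ∈ range n, (168 * (k : ℚ)^3 + 76 * (k : ℚ)^2 + 14 * k + 1) / 2^(20 * k) * ((2 * k).choose k : ℚ)^7 =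
      ∑ k ∈ range n, (168 * (k : ℚ)^3 + 76 * k^2 + 14 * k + 1) * ((2 * k).choose k : ℚ)^7 / 2^(20 * k) := by
    intro n
    apply sum_congr rfl
    intro k _
    ring
  rw [hc1, hc2, leg hP, show (p - 1) / 2 + 1 = P + 1 by omega]
  by_cases hP3 : 3 ≤ P
  · refine ⟨of_mem (Pool.Agent.D0H46.SE.partA hP hP3), of_mem ?_⟩
    have := Pool.Agent.D0H46.SE.partB (p := p) hP hP3
    push_cast
    exact this
  · have hP1 : P = 1 := by
      have : P ≠ 0 := by rintro rfl; rw [hP] at hp; exact Nat.not_prime_one hp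
      have : P ≠ 2 := by rintro rfl; exact h5 hP
      omega
    subst hP1
    have h3 : p = 3 := hP
    subst h3
    have n2 : ((2^13 : ℕ) : ℚ)⁻¹ ∈ Zp 3 := inv_Zp (by norm_num)
    have n9 : ((2^9 : ℕ) : ℚ)⁻¹ ∈ Zp 3 := inv_Zp (by norm_num)
    constructor
    · apply of_mem
      refine ⟨(91 : ℕ) * ((2^9 : ℕ) : ℚ)⁻¹, mul_mem (natCast_Zp _) n9, ?_⟩
      norm_num [Finset.sum_range_succ, Nat.choose]
    · apply of_mem
      refine ⟨(35 : ℕ) * ((2^13 : ℕ) : ℚ)⁻¹, mul_mem (natCast_Zp _) n2, ?_⟩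
      norm_num [Finset.sum_range_succ, Nat.choose]

end Pool.Agent.Results.MP_48d34c_nt.ModPEight
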